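import Mathlib
import Pool.Agent.Lib.MP_6d896a_gt.LL.Main

/-!
The isoperimetric inequality conjectured by Kannan, Lovasz and Simonovits for all log-concave
probability measures, up to a power of the iterated logarithm of the dimension.
-/

set_option autoImplicit false

open Pointwise

namespace Pool.Agent.Results.MP_6d896a_gt.AllLogConcave

/-- There is `C > 0` such that for every `n`, every log-concave probability measure on `ℝ^n` with
all directional variances at most `s`, and every Borel set `S`, the boundary measure of `S` is at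
least `C / ((1 + log (1 + log n)) ^ (3 / 2) * sqrt s)` times `min (μ S) (μ Sᶜ)`. (For `n = 0` the
real logarithm of `0` is `0`.) -/
theorem result :
    ∃ C : ℝ, 0 < C ∧
      ∀ (n : ℕ) (μ : MeasureTheory.Measure (EuclideanSpace ℝ (Fin n))),
        MeasureTheory.IsProbabilityMeasure μ →
        (∀ (A B : Set (EuclideanSpace ℝ (Fin n))) (t : ℝ),
            IsCompact A → IsCompact B → 0 < t → t < 1 →
              (μ A) ^ t * (μ B) ^ (1 - t) ≤ μ (t • A + (1 - t) • B)) →
        ∀ s : ℝ, 0 < s →
          (∀ θ : EuclideanSpace ℝ (Fin n), ‖θ‖ = 1 →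
              ProbabilityTheory.variance (fun x => inner ℝ x θ) μ ≤ s) →
          ∀ S : Set (EuclideanSpace ℝ (Fin n)), MeasurableSet S →
            ENNReal.ofReal (C / ((1 + Real.log (1 + Real.log n)) ^ (3 / 2 : ℝ) * Real.sqrt s)) *
                min (μ S) (μ Sᶜ) ≤
              Filter.liminf
                (fun ε : ℝ => (μ (Metric.thickening ε S) - μ S) / ENNReal.ofReal ε)
                (nhdsWithin 0 (Set.Ioi 0)) :=
  Pool.Agent.Lib.MP_6d896a_gt.LG.iso_loglog

end Pool.Agent.Results.MP_6d896a_gt.AllLogConcave
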