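import Mathlib
import Pool.Agent.Lib.MP_6d896a_gt.FP.ShadFinal

/-!
The Kannan-Lovasz-Simonovits inequality for shadows (sup-projections) and linear images of
log-concave measures with a hierarchical factorisation: a density which factors along a forest,
multiplied by log-concave functions which depend on the ancestors of a vertex and on a few linear
functionals of the coordinates comparable with it.
-/

set_option autoImplicit false

namespace Pool.Agent.Results.MP_6d896a_gt.Hierarchical

open MeasureTheory

/-- There is a universal `C > 0` with the following property. Let `anc` be the ancestor sets of a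
forest on the coordinates `1, ..., m` (every vertex is one of its own ancestors). Let
`ρ = (∏ v, f v) * ∏ i, g i` be a probability density on `ℝ^m` where

* `∏ v, f v` is log-concave and `f v x` depends only on the coordinates `x u`, `u ∈ anc v`;
* each `g i` is log-concave and `g i x` depends only on the coordinates `x u`, `u ∈ anc (a i)`, and
  on `k i` linear functionals `B i j` of the coordinates comparable with `a i`;
* for every vertex `v` the number of its ancestors plus the number of functionals attached to them,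
  `∑ k i` over all `i` with `a i ∈ anc v`, is at most `t`.

Let `S` be a linear map of `ℝ^m` onto `ℝ^d`, `m ≤ d + r`, and let `σ y = sup {ρ x | S x = y}` be the
shadow of `ρ` under `S` (`r = 0`, `S = id`: the density `ρ` itself; for `ρ` uniform on a convex body:
the uniform density on its image). Then every linear image `μ` of the probability measure
proportional to `σ y dy` satisfies the Kannan-Lovasz-Simonovits inequality with the constant
`C ^ (t + r + 1)`, in the form of the frozen statement. -/
theorem result :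
    ∃ C : ℝ, 0 < C ∧
      ∀ (t r m d n l : ℕ) (anc : Fin m → Finset (Fin m)),
        (∀ v, v ∈ anc v) → (∀ u v, u ∈ anc v → anc u ⊆ anc v) →
        (∀ u w v, u ∈ anc v → w ∈ anc v → u ∈ anc w ∨ w ∈ anc u) →
        ∀ (a : Fin l → Fin m) (k : Fin l → ℕ),
        (∀ v, (anc v).card + ∑ i ∈ Finset.univ.filter (fun i => a i ∈ anc v), k i ≤ t) →
        ∀ B : (i : Fin l) → Fin (k i) → (Fin m → ℝ) →ₗ[ℝ] ℝ,
        (∀ i j w, B i j (Pi.single w 1) ≠ 0 → a i ∈ anc w ∨ w ∈ anc (a i)) →
        ∀ f : Fin m → (Fin m → ℝ) → ℝ, (∀ v x, 0 ≤ f v x) → (∀ v, Measurable (f v)) →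
        (∀ v x y, (∀ u ∈ anc v, x u = y u) → f v x = f v y) →
        (∀ (x y : Fin m → ℝ) (p q : ℝ), 0 < p → 0 < q → p + q = 1 →
          (∏ v, f v x) ^ p * (∏ v, f v y) ^ q ≤ ∏ v, f v (p • x + q • y)) →
        ∀ g : Fin l → (Fin m → ℝ) → ℝ, (∀ i x, 0 ≤ g i x) → (∀ i, Measurable (g i)) →
        (∀ i (x y : Fin m → ℝ) (p q : ℝ), 0 < p → 0 < q → p + q = 1 →
          g i x ^ p * g i y ^ q ≤ g i (p • x + q • y)) →
        (∀ i x y, (∀ u ∈ anc (a i), x u = y u) → (∀ j, B i j x = B i j y) → g i x = g i y) →
        ∫⁻ x, ENNReal.ofReal ((∏ v, f v x) * ∏ i, g i x) = 1 →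
        ∀ S : (Fin m → ℝ) →ₗ[ℝ] (Fin d → ℝ), Function.Surjective S → m ≤ d + r →
        ∀ σ : (Fin d → ℝ) → ℝ,
        (∀ y, σ y = sSup ((fun x => (∏ v, f v x) * ∏ i, g i x) '' {x | S x = y})) →
        ∀ (T : (Fin d → ℝ) →ₗ[ℝ] EuclideanSpace ℝ (Fin n))
          (μ : Measure (EuclideanSpace ℝ (Fin n))),
        μ = ((∫⁻ y, ENNReal.ofReal (σ y))⁻¹ •
          (volume : Measure (Fin d → ℝ)).withDensity fun y => ENNReal.ofReal (σ y)).map T →
        ∀ s : ℝ, 0 < s →
          (∀ θ : EuclideanSpace ℝ (Fin n), ‖θ‖ = 1 →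
              ProbabilityTheory.variance (fun x => inner ℝ x θ) μ ≤ s) →
          ∀ S : Set (EuclideanSpace ℝ (Fin n)), MeasurableSet S →
            ENNReal.ofReal (C ^ (t + r + 1) / Real.sqrt s) * min (μ S) (μ Sᶜ) ≤
              Filter.liminf
                (fun ε : ℝ => (μ (Metric.thickening ε S) - μ S) / ENNReal.ofReal ε)
                (nhdsWithin 0 (Set.Ioi 0)) :=
  Pool.Agent.Lib.MP_6d896a_gt.FP.hierShad

end Pool.Agent.Results.MP_6d896a_gt.Hierarchical
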