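import Mathlib
import Pool.Agent.Lib.MP_6d896a_gt.Sym15
import Pool.Agent.Lib.MP_6d896a_gt.UR.MainR
import Pool.Agent.Lib.MP_6d896a_gt.UR.ReflCL
import Pool.Agent.Lib.MP_6d896a_gt.UR.ReflAP
import Pool.Agent.Lib.MP_6d896a_gt.UR.ReflCodim

/-!
The inequality conjectured by Kannan, Lovasz and Simonovits for log-concave probability measures
which are invariant under orthogonal reflections in hyperplanes, and for their linear images, up to
the square root of the codimension of the span of the normals of the hyperplanes.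
-/

set_option autoImplicit false

open Pointwise

namespace Pool.Agent.Results.MP_6d896a_gt.ReflectionInvariant

open MeasureTheory

/-- There is a universal `C > 0` with the following property. Let `μ` be a log-concave probability
measure on `ℝ^N` (log-concavity is tested on compact sets, as in the frozen statement) and let `R`
be a set of vectors such that `μ` is invariant under the orthogonal reflection in the hyperplane
`a^⊥` for each `a` in `R`. Let `d` be such that the dimension of the linear span of `R` is at least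
`N - d`. Then `μ` and each linear image `ν` of `μ` satisfy the Kannan-Lovasz-Simonovits inequality
with constant `C / sqrt (d + 1)`, in the form of the frozen statement. -/
theorem result :
    ∃ C : ℝ, 0 < C ∧
      ∀ (N d : ℕ) (μ : Measure (EuclideanSpace ℝ (Fin N))),
        IsProbabilityMeasure μ →
        (∀ (A B : Set (EuclideanSpace ℝ (Fin N))) (t : ℝ),
            IsCompact A → IsCompact B → 0 < t → t < 1 →
              (μ A) ^ t * (μ B) ^ (1 - t) ≤ μ (t • A + (1 - t) • B)) →
        ∀ R : Set (EuclideanSpace ℝ (Fin N)),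
          (∀ a ∈ R, μ.map (fun x => x - (2 * inner ℝ a x / ‖a‖ ^ 2) • a) = μ) →
          N ≤ Module.finrank ℝ (Submodule.span ℝ R) + d →
        ∀ (n : ℕ) (T : EuclideanSpace ℝ (Fin N) →ₗ[ℝ] EuclideanSpace ℝ (Fin n))
          (ν : Measure (EuclideanSpace ℝ (Fin n))), ν = μ.map T →
        ∀ s : ℝ, 0 < s →
          (∀ θ : EuclideanSpace ℝ (Fin n), ‖θ‖ = 1 →
              ProbabilityTheory.variance (fun x => inner ℝ x θ) ν ≤ s) →
          ∀ S : Set (EuclideanSpace ℝ (Fin n)), MeasurableSet S →
            ENNReal.ofReal (C / Real.sqrt ((d + 1) * s)) * min (ν S) (ν Sᶜ) ≤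
              Filter.liminf
                (fun ε : ℝ => (ν (Metric.thickening ε S) - ν S) / ENNReal.ofReal ε)
                (nhdsWithin 0 (Set.Ioi 0)) := by
  obtain ⟨C, hC, h⟩ := Pool.Agent.Lib.MP_6d896a_gt.UC.UR.refl_cheeger_codim
    (K := 10 ^ 14 * 1) (by norm_num) (fun n ν hν hpl A hA hspan =>
      Pool.Agent.Lib.MP_6d896a_gt.UC.UR.refl_ap_of (by norm_num)
        (fun ν' hν' hpl' A' hA' hspan' h2 hvar _ _ _ _ hf =>
          Pool.Agent.Lib.MP_6d896a_gt.UC.UR.refl_poincare_CL_of
            (@Pool.Agent.Lib.MP_6d896a_gt.UC.UR.mainR _) ν' hpl' A' hA' hspan' h2 one_pos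
            hvar hf) ν hpl A hA hspan)
  refine ⟨C, hC, ?_⟩
  rintro N d μ hμ hlc R hR hN n T ν rfl s hs hvar S hS
  have hpl : Pool.Agent.Lib.MP_6d896a_gt.FP.PLm μ :=
    Pool.Agent.Lib.MP_6d896a_gt.plm_of_borell hlc
  refine h N d μ hpl R (fun a ha => ?_) hN n T s hs hvar S hS
  have h1 : (fun x => Pool.Agent.Lib.MP_6d896a_gt.UC.UR.RA a x) =
      (fun x => x - (2 * inner ℝ a x / ‖a‖ ^ 2) • a) := by
    funext x
    exact Pool.Agent.Lib.MP_6d896a_gt.UC.UR.RA_apply a x
  have h2 := hR a ha
  rw [← h1] at h2
  exact h2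

end Pool.Agent.Results.MP_6d896a_gt.ReflectionInvariant
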