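import Mathlib
import Pool.Agent.Lib.MP_6d896a_gt.CJ.MAp
import Pool.Agent.Lib.MP_6d896a_gt.CJ.MFinalOf
import Pool.Agent.Lib.MP_6d896a_gt.Sym15

/-!
The inequality conjectured by Kannan, Lovasz and Simonovits for all log-concave probability
measures on tuples of real numbers, vectors and square matrices which are invariant under the
natural action of the rotations, and for their linear images.
-/

set_option autoImplicit false

open Pointwise

namespace Pool.Agent.Results.MP_6d896a_gt.RotationInvariant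

open MeasureTheory

/-- The coordinates of a triple `(y, v, A)`, where `y` is in `ℝ^d`, `v = (v_1, ..., v_m)` is an
`m`-tuple of vectors of `ℝ^n` and `A = (A_1, ..., A_k)` is a `k`-tuple of real `n × n` matrices:
`y_a`, the `i`-th coordinate of `v_j` at `(i, j)`, and the entry `i, j` of `A_l` at `(l, i, j)`. -/
abbrev Idx (n d m k : ℕ) : Type := Fin d ⊕ ((Fin n × Fin m) ⊕ (Fin k × Fin n × Fin n))

/-- the action `(y, (v_j)_j, (A_l)_l) ↦ (y, (U v_j)_j, (U A_l Uᵀ)_l)` of a matrix `U` -/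
def rotate {n d m k : ℕ} (U : Matrix (Fin n) (Fin n) ℝ) (x : EuclideanSpace ℝ (Idx n d m k)) :
    EuclideanSpace ℝ (Idx n d m k) :=
  WithLp.toLp 2 (Sum.elim (fun a => x (Sum.inl a))
    (Sum.elim (fun p => ∑ a, U p.1 a * x (Sum.inr (Sum.inl (a, p.2))))
      (fun q => ∑ a, ∑ b, U q.2.1 a * x (Sum.inr (Sum.inr (q.1, a, b))) * U q.2.2 b)))

/-- log-concavity, tested on compact sets as in the frozen statement -/
def LogConcave {ι : Type} (μ : Measure (EuclideanSpace ℝ ι)) : Prop :=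
  ∀ (A B : Set (EuclideanSpace ℝ ι)) (t : ℝ), IsCompact A → IsCompact B → 0 < t → t < 1 →
    (μ A) ^ t * (μ B) ^ (1 - t) ≤ μ (t • A + (1 - t) • B)

/-- the Kannan-Lovasz-Simonovits inequality with constant `κ`, in the form of the frozen
statement -/
def KLS {N : ℕ} (ν : Measure (EuclideanSpace ℝ (Fin N))) (κ : ℝ) : Prop :=
  ∀ s : ℝ, 0 < s →
    (∀ θ : EuclideanSpace ℝ (Fin N), ‖θ‖ = 1 →
      ProbabilityTheory.variance (fun x => inner ℝ x θ) ν ≤ s) →
    ∀ S : Set (EuclideanSpace ℝ (Fin N)), MeasurableSet S →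
      ENNReal.ofReal (κ / Real.sqrt s) * min (ν S) (ν Sᶜ) ≤
        Filter.liminf
          (fun ε : ℝ => (ν (Metric.thickening ε S) - ν S) / ENNReal.ofReal ε)
          (nhdsWithin 0 (Set.Ioi 0))

/-- There is a universal `C > 0` such that every log-concave probability measure `μ` on the space
of triples `(y, v, A)`, `y ∈ ℝ^d`, `v ∈ (ℝ^n)^m`, `A ∈ (M_n(ℝ))^k`, which is invariant under
`(y, v, A) ↦ (y, (U v_j)_j, (U A_l Uᵀ)_l)` for all `U ∈ SO(n)`, and each linear image of `μ`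
satisfy the Kannan-Lovasz-Simonovits inequality with constant `C / √(1 + d + k + m / n)`. -/
theorem result :
    ∃ C : ℝ, 0 < C ∧
      ∀ (n d m k : ℕ) (μ : Measure (EuclideanSpace ℝ (Idx n d m k))),
        IsProbabilityMeasure μ → LogConcave μ →
        (∀ U : Matrix (Fin n) (Fin n) ℝ, U.transpose * U = 1 → U.det = 1 →
          μ.map (rotate U) = μ) →
        ∀ (N : ℕ) (T : EuclideanSpace ℝ (Idx n d m k) →ₗ[ℝ] EuclideanSpace ℝ (Fin N)),
          KLS (μ.map T) (C / Real.sqrt (1 + d + k + (m : ℝ) / n)) := by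
  obtain ⟨C0, hC0, hcod⟩ := Pool.Agent.Lib.MP_6d896a_gt.CJ.codimStat
  obtain ⟨C1, hC1, hmi⟩ := Pool.Agent.Lib.MP_6d896a_gt.CJ.miStat
  obtain ⟨C, hC, h⟩ := Pool.Agent.Lib.MP_6d896a_gt.CJ.fd_cheeger_of hC0 hC1 hcod hmi
  refine ⟨C, hC, ?_⟩
  intro n d m k μ hμ hlc hinv N T s hs hvar S hS
  have hinv' : ∀ g : Pool.Agent.Lib.MP_6d896a_gt.OM.RotG (Fin n),
      μ.map (Pool.Agent.Lib.MP_6d896a_gt.CJ.fi
        ((g : Matrix.orthogonalGroup (Fin n) ℝ) : Matrix (Fin n) (Fin n) ℝ)) = μ := by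
    intro g
    have h1 := hinv ((g : Matrix.orthogonalGroup (Fin n) ℝ) : Matrix (Fin n) (Fin n) ℝ)
      (Pool.Agent.Lib.MP_6d896a_gt.OM.orth_left _) (Pool.Agent.Lib.MP_6d896a_gt.OM.det_rot g.2)
    have h2 : (rotate ((g : Matrix.orthogonalGroup (Fin n) ℝ) : Matrix (Fin n) (Fin n) ℝ) :
        EuclideanSpace ℝ (Idx n d m k) → EuclideanSpace ℝ (Idx n d m k)) =
        Pool.Agent.Lib.MP_6d896a_gt.CJ.fi
          ((g : Matrix.orthogonalGroup (Fin n) ℝ) : Matrix (Fin n) (Fin n) ℝ) := by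
      funext x
      exact (Pool.Agent.Lib.MP_6d896a_gt.CJ.fi_coord _ x).symm
    rw [h2] at h1
    exact h1
  have key := h n d m k μ (Pool.Agent.Lib.MP_6d896a_gt.plm_of_borell hlc) hinv' N T s hs hvar S hS
  have hp : (0 : ℝ) ≤ 1 + d + k + (m : ℝ) / n := by positivity
  rw [Real.sqrt_mul hp] at key
  rw [div_div]
  exact key

end Pool.Agent.Results.MP_6d896a_gt.RotationInvariant
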